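import Pool.Agent.T9h20.TG.Spec2

/-! Project TG (helper20, MP_97f157_lc): piece (CG), covering near `B`. -/

set_option autoImplicit false

open Set

namespace Pool.Agent.T9h71.TG

open Pool.Agent.T9h20.TG

theorem sCovG (hC : SCov) : SCovG := by
  classical
  intro B η G p r hη hG hpr hB
  have key : ∀ b0 ∈ B, ∃ X : Finset ℝ, (∀ x ∈ X, p ≤ x ∧ x ≤ r) ∧
      (X.card : ℝ) ≤ 20 * B.card * Real.log (1 + 4 * G / η) + 1 ∧
      ∀ y ∈ Icc p r, |y - b0| < G → ∃ x ∈ X, ∀ b ∈ B, |y - x| ≤ (η + |x - b|) / 8 := by
    intro b0 hb0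
    obtain ⟨h1, h2⟩ := hB b0 hb0
    have m1 := le_max_right p (b0 - G)
    have m2 := le_max_left p (b0 - G)
    have m3 := min_le_right r (b0 + G)
    have m4 := min_le_left r (b0 + G)
    have m5 : max p (b0 - G) ≤ min r (b0 + G) :=
      max_le (le_min hpr (by linarith)) (le_min (by linarith) (by linarith))
    set B' := (B.filter fun b => |b - b0| ≤ 2 * G).image fun b => b - b0 with hB'
    have hmem : ∀ b ∈ B, |b - b0| ≤ 2 * G → b - b0 ∈ B' := by
      intro b hb hb'
      exact Finset.mem_image.2 ⟨b, Finset.mem_filter.2 ⟨hb, hb'⟩, rfl⟩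
    obtain ⟨X, hX1, hX2, hX3⟩ := hC B' η (2 * G) (max p (b0 - G) - b0) (min r (b0 + G) - b0) hη
      (by positivity) (by linarith) (by linarith) (by linarith)
      (by
        intro b hb
        obtain ⟨b', hb', rfl⟩ := Finset.mem_image.1 hb
        exact (Finset.mem_filter.1 hb').2)
    refine ⟨X.image fun x => x + b0, ?_, ?_, ?_⟩
    · intro x hx
      obtain ⟨x', hx', rfl⟩ := Finset.mem_image.1 hx
      obtain ⟨a1, a2⟩ := hX1 x' hx'
      constructor
      · show p ≤ x' + b0
        linarith
      · show x' + b0 ≤ r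
        linarith
    · have c1 : ((X.image fun x => x + b0).card : ℝ) ≤ X.card := by
        exact_mod_cast Finset.card_image_le
      have c2 : (B'.card : ℝ) ≤ B.card := by
        exact_mod_cast Finset.card_image_le.trans (Finset.card_filter_le _ _)
      have c0 : 0 < 4 * G / η := by positivity
      have c3 : 0 ≤ Real.log (1 + 4 * G / η) := Real.log_nonneg (by linarith)
      have c4 : 2 * (2 * G) / η = 4 * G / η := by ring
      rw [c4] at hX2
      have c5 := mul_le_mul_of_nonneg_right c2 c3
      linarith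
    · intro y hy hyb
      rw [abs_lt] at hyb
      have hin : y - b0 ∈ Icc (max p (b0 - G) - b0) (min r (b0 + G) - b0) := by
        constructor
        · have : max p (b0 - G) ≤ y := max_le hy.1 (by linarith [hyb.1])
          linarith
        · have : y ≤ min r (b0 + G) := le_min hy.2 (by linarith [hyb.2])
          linarith
      obtain ⟨x, hx, hx'⟩ := hX3 (y - b0) hin
      have hxx : ∀ b ∈ B, |b - b0| ≤ 2 * G → |y - (x + b0)| ≤ (η + |x + b0 - b|) / 8 := by
        intro b hb hbn
        have h3 := hx' (b - b0) (hmem b hb hbn)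
        have e1 : y - b0 - x = y - (x + b0) := by ring
        have e2 : x - (b - b0) = x + b0 - b := by ring
        rw [e1, e2] at h3
        exact h3
      refine ⟨x + b0, Finset.mem_image_of_mem _ hx, ?_⟩
      intro b hb
      by_cases hbn : |b - b0| ≤ 2 * G
      · exact hxx b hb hbn
      · push Not at hbn
        have h4 := hxx b0 hb0 (by rw [sub_self, abs_zero]; positivity)
        have e3 : x + b0 - b0 = x := by ring
        rw [e3] at h4
        have hxG : |x| ≤ G := by
          obtain ⟨a1, a2⟩ := hX1 x hx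
          rw [abs_le]
          constructor <;> linarith
        have h5 : |b - b0| ≤ |x + b0 - b| + |x| := by
          have e4 : b - b0 = -(x + b0 - b) + x := by ring
          rw [e4]
          refine (abs_add_le _ _).trans ?_
          rw [abs_neg]
        linarith
  choose! Xf hXf using key
  refine ⟨B.biUnion Xf, ?_, ?_, ?_⟩
  · intro x hx
    obtain ⟨b, hb, hx'⟩ := Finset.mem_biUnion.1 hx
    exact (hXf b hb).1 x hx'
  · have h1 : ((B.biUnion Xf).card : ℝ) ≤ ∑ b ∈ B, ((Xf b).card : ℝ) := by
      exact_mod_cast Finset.card_biUnion_le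
    refine h1.trans ((Finset.sum_le_sum fun b hb => (hXf b hb).2.1).trans ?_)
    rw [Finset.sum_const, nsmul_eq_mul]
  · rintro y hy ⟨b, hb, hyb⟩
    obtain ⟨x, hx, hx'⟩ := (hXf b hb).2.2 y hy hyb
    exact ⟨x, Finset.mem_biUnion.2 ⟨b, hb, hx⟩, hx'⟩

end Pool.Agent.T9h71.TG
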